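import Pool.Agent.Helper17.SA.St3

/-!
# Module AU1 of project SA: automorphisms of `A_m`, `m ≥ 7`, preserve `3`-cycles
-/

set_option autoImplicit false

namespace Pool.Agent.Helper92.SA

open Equiv Pool.Agent.Helper17.SA

/-- `|C(a)| ≤ 2 |C(φ a)|` for an automorphism `φ` of a normal subgroup of index `2`. -/
theorem cent_le {G : Type} [Group G] [Finite G] (A : Subgroup G) [A.Normal] (hA : A.index = 2)
    (φ : MulAut A) (a : A) :
    Nat.card (Subgroup.centralizer {(a : G)}) ≤
      2 * Nat.card (Subgroup.centralizer {(φ a : G)}) := by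
  obtain ⟨C, hC⟩ : ∃ C, C = Subgroup.centralizer {(a : G)} := ⟨_, rfl⟩
  have hCm : ∀ x ∈ C, x * a = a * x := by
    intro x hx
    rwa [hC, Subgroup.mem_centralizer_singleton_iff] at hx
  have h1 : (A.subgroupOf C).index ∣ 2 := by
    have := Subgroup.relIndex_dvd_index_of_normal A C
    rwa [hA] at this
  have h2 : (A.subgroupOf C).index ≤ 2 := Nat.le_of_dvd (by norm_num) h1
  have h3 := Subgroup.card_mul_index (A.subgroupOf C)
  have h4 : Nat.card (A.subgroupOf C) ≤
      Nat.card (Subgroup.centralizer {(φ a : G)}) := by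
    have hx : ∀ x : A.subgroupOf C, ((x : C) : G) ∈ A := fun x => x.2
    have hc : ∀ x : A.subgroupOf C,
        ((φ ⟨((x : C) : G), hx x⟩ : A) : G) ∈ Subgroup.centralizer {(φ a : G)} := by
      intro x
      rw [Subgroup.mem_centralizer_singleton_iff]
      have h5 := hCm _ (x : C).2
      have h6 : (⟨((x : C) : G), hx x⟩ : A) * a = a * ⟨((x : C) : G), hx x⟩ := Subtype.ext h5
      have h7 := congrArg (fun z => ((φ z : A) : G)) h6
      simpa using h7
    refine Nat.card_le_card_of_injective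
      (fun x => (⟨((φ ⟨((x : C) : G), hx x⟩ : A) : G), hc x⟩ :
        Subgroup.centralizer {(φ a : G)})) ?_
    intro x y hxy
    have h5 := congrArg (fun z : Subgroup.centralizer {(φ a : G)} => (z : G)) hxy
    have h6 := φ.injective (Subtype.ext h5)
    have h7 := congrArg (fun z : A => (z : G)) h6
    exact Subtype.ext (Subtype.ext h7)
  rw [← hC, ← h3]
  calc Nat.card (A.subgroupOf C) * (A.subgroupOf C).index
      ≤ Nat.card (Subgroup.centralizer {(φ a : G)}) * 2 := Nat.mul_le_mul h4 h2
    _ = _ := by ring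

/-- `2 * 3 ^ (K - 1) * K! < (3 (K - 1))!` for `K ≥ 3`. -/
theorem fac_lt (k : ℕ) : 2 * 3 ^ (k + 2) * (k + 3).factorial < (3 * (k + 2)).factorial := by
  induction k with
  | zero => decide
  | succ n ih =>
    have h1 : (3 * (n + 1 + 2)).factorial =
        (3 * (n + 2) + 3) * ((3 * (n + 2) + 2) * ((3 * (n + 2) + 1) *
          (3 * (n + 2)).factorial)) := by
      have : 3 * (n + 1 + 2) = 3 * (n + 2) + 2 + 1 := by ring
      rw [this, Nat.factorial_succ, Nat.factorial_succ, Nat.factorial_succ]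
    have h2 : (n + 1 + 3).factorial = (n + 4) * (n + 3).factorial := by
      have : n + 1 + 3 = (n + 3) + 1 := by ring
      rw [this, Nat.factorial_succ]
    rw [h1, h2, pow_succ]
    have h3 : 3 * (n + 4) * (2 * 3 ^ (n + 2) * (n + 3).factorial) <
        3 * (n + 4) * (3 * (n + 2)).factorial := by
      apply Nat.mul_lt_mul_of_pos_left ih
      omega
    have h4 : 3 * (n + 4) * (3 * (n + 2)).factorial ≤
        (3 * (n + 2) + 3) * ((3 * (n + 2) + 2) * ((3 * (n + 2) + 1) *
          (3 * (n + 2)).factorial)) := by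
      have h5 : 3 * (n + 4) ≤ (3 * (n + 2) + 3) * ((3 * (n + 2) + 2) * (3 * (n + 2) + 1)) := by
        have h6 : 3 * (n + 4) ≤ (3 * (n + 2) + 3) * 2 := by omega
        have h7 : 2 ≤ (3 * (n + 2) + 2) * (3 * (n + 2) + 1) := by nlinarith
        exact h6.trans (Nat.mul_le_mul_left _ h7)
      calc 3 * (n + 4) * (3 * (n + 2)).factorial
          ≤ ((3 * (n + 2) + 3) * ((3 * (n + 2) + 2) * (3 * (n + 2) + 1))) *
            (3 * (n + 2)).factorial := Nat.mul_le_mul_right _ h5
        _ = _ := by ring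
    calc 2 * (3 ^ (n + 1 + 1) * 3) * ((n + 4) * (n + 3).factorial)
        = 3 * (n + 4) * (2 * 3 ^ (n + 2) * (n + 3).factorial) := by ring
      _ < _ := h3
      _ ≤ _ := h4

/-- Centralizer order of a permutation of type `3 ^ K`, `K ≥ 1`. -/
theorem cent_card (m K : ℕ) (hK : 1 ≤ K) (g : Perm (Fin m))
    (hg : g.cycleType = Multiset.replicate K 3) :
    Nat.card (Subgroup.centralizer {g}) = (m - 3 * K).factorial * 3 ^ K * K.factorial := by
  have hK0 : K ≠ 0 := by omega
  rw [Perm.nat_card_centralizer, hg]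
  have h1 : (Multiset.replicate K 3).toFinset = {3} := by
    ext x
    simp [hK0]
  rw [h1]
  simp [mul_comm K 3]

theorem pAU1 : StAU1 := by
  intro m φ hm a ha
  have hb3 : orderOf (φ a : Perm (Fin m)) = 3 := by
    rw [Subgroup.orderOf_coe, MulEquiv.orderOf_eq, ← Subgroup.orderOf_coe]
    exact ha.orderOf
  obtain ⟨k, hk⟩ := Perm.cycleType_prime_order (σ := (φ a : Perm (Fin m)))
    (by rw [hb3]; exact Nat.prime_three)
  rw [hb3] at hk
  have hle : 3 * (k + 1) ≤ m := by
    have := Perm.sum_cycleType_le (φ a : Perm (Fin m))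
    rw [hk] at this
    simp at this
    omega
  have : Nontrivial (Fin m) := Fin.nontrivial_iff_two_le.2 (by omega)
  have h1 := cent_le (alternatingGroup (Fin m)) alternatingGroup.index_eq_two φ a
  have ha' : (a : Perm (Fin m)).cycleType = Multiset.replicate 1 3 := by
    rw [Multiset.replicate_one]
    exact ha
  rw [cent_card m 1 le_rfl _ ha', cent_card m (k + 1) (by omega) _ hk] at h1
  rcases k with _ | _ | k
  · show (φ a : Perm (Fin m)).cycleType = {3}
    rw [hk]
    simp
  · exfalso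
    obtain ⟨n, rfl⟩ : ∃ n, m = n + 6 := ⟨m - 6, by omega⟩
    have e1 : n + 6 - 3 * 1 = n + 2 + 1 := by omega
    have e2 : n + 6 - 3 * (0 + 1 + 1) = n := by omega
    rw [e1, e2, Nat.factorial_succ, Nat.factorial_succ, Nat.factorial_succ] at h1
    have hpos : 0 < n.factorial := Nat.factorial_pos n
    have h2 : (0 + 1 + 1).factorial = 2 := by decide
    have h3 : (1 : ℕ).factorial = 1 := by decide
    rw [h2, h3] at h1
    have h4 : (n + 2 + 1) * ((n + 1 + 1) * (n + 1)) ≥ 24 := by
      have : 1 ≤ n := by omega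
      nlinarith [mul_le_mul this this (by norm_num) (by omega)]
    have h5 := Nat.mul_le_mul_right n.factorial h4
    have h6 : (n + 2 + 1) * ((n + 1 + 1) * ((n + 1) * n.factorial)) * 3 ^ 1 * 1 =
        3 * ((n + 2 + 1) * ((n + 1 + 1) * (n + 1)) * n.factorial) := by ring
    have h7 : 2 * (n.factorial * 3 ^ (0 + 1 + 1) * 2) = 36 * n.factorial := by ring
    rw [h6, h7] at h1
    omega
  · exfalso
    obtain ⟨n, rfl⟩ : ∃ n, m = n + 3 * (k + 3) := ⟨m - 3 * (k + 3), by omega⟩
    have e1 : n + 3 * (k + 3) - 3 * 1 = n + 3 * (k + 2) := by omega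
    have e2 : n + 3 * (k + 3) - 3 * (k + 1 + 1 + 1) = n := by omega
    rw [e1, e2] at h1
    have h2 : n.factorial * (3 * (k + 2)).factorial ≤ (n + 3 * (k + 2)).factorial :=
      Nat.le_of_dvd (Nat.factorial_pos _) (Nat.factorial_mul_factorial_dvd_factorial_add _ _)
    have h3 := fac_lt k
    have hpos : 0 < n.factorial := Nat.factorial_pos n
    have h4 : n.factorial * (2 * 3 ^ (k + 2) * (k + 3).factorial) <
        n.factorial * (3 * (k + 2)).factorial := Nat.mul_lt_mul_of_pos_left h3 hpos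
    have h5 : k + 1 + 1 + 1 = k + 3 := rfl
    rw [h5] at h1
    have h6 : (3 : ℕ) ^ (k + 3) = 3 ^ (k + 2) * 3 := pow_succ 3 (k + 2)
    rw [h6] at h1
    simp only [Nat.factorial_one, pow_one, mul_one] at h1
    have h7 : 2 * (n.factorial * (3 ^ (k + 2) * 3) * (k + 3).factorial) =
        3 * (n.factorial * (2 * 3 ^ (k + 2) * (k + 3).factorial)) := by ring
    rw [h7] at h1
    omega

end Pool.Agent.Helper92.SA
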