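import Mathlib

/-!
# Module C53 of project SA: finite computations
-/

set_option autoImplicit false

namespace Pool.Agent.Helper92.SA.C53

open Equiv

/-- The four elements of the Klein group which fixes `i`, as functions. -/
def tab (i : Fin 5) (t : Fin 4) (k : Fin 5) : Fin 5 :=
  let s : Fin 5 → Fin 5 := fun k => if k = i then 4 else if k = 4 then i else k
  let k' := s k
  if k' = 4 then s 4 else s (Fin.ofNat 5 (Nat.xor k'.val t.val))

/-- The class of a permutation `n` in terms of `n 3`, `n 4`: double cosets of the group of the even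
permutations of `0, 1, 2`; the normalizer is class `0`. -/
def cl (y z : Fin 5) : Fin 7 :=
  if (y = 3 ∧ z = 4) ∨ (y = 4 ∧ z = 3) then 0 else if y = 3 then 1 else if y = 4 then 2 else
  if z = 3 then 3 else if z = 4 then 4 else if (y.val + 1) % 3 = z.val then 5 else 6

/-- A point different from `i`. -/
def pt (i : Fin 5) : Fin 5 := if i = 0 then 1 else 0

theorem tab_spec : ∀ a : Perm (Fin 5), Perm.sign a = 1 → a * a = 1 → ∀ i, a i = i →
    ∃ t : Fin 4, ∀ k, a k = tab i t k := by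
  decide +kernel

theorem cl_inv : ∀ q : Perm (Fin 5), Perm.sign q = 1 → q 3 = 3 → q 4 = 4 →
    ∀ y z, cl (q y) (q z) = cl y z := by
  decide +kernel

theorem fix_spec : ∀ q : Perm (Fin 5), Perm.sign q = 1 → q 3 = 3 → q 4 = 4 → q ≠ 1 →
    ∀ k, q k = k → k = 3 ∨ k = 4 := by
  decide +kernel

theorem cl_zero : ∀ y z : Fin 5, (y = 3 ∨ y = 4) → (z = 3 ∨ z = 4) → y ≠ z → cl y z = 0 := by
  decide +kernel

theorem klein_mul : ∀ a : Perm (Fin 5), Perm.sign a = 1 → a 0 = 0 → a * a = 1 →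
    ∀ b : Perm (Fin 5), Perm.sign b = 1 → b 0 = 0 → b * b = 1 → (a * b) * (a * b) = 1 := by
  decide +kernel

theorem klein_card : (Finset.univ.filter (fun a : Perm (Fin 5) => Perm.sign a = 1 ∧
    a 0 = 0 ∧ a * a = 1)).card = 4 := by
  decide +kernel

theorem cyc_card : (Finset.univ.filter (fun a : Perm (Fin 5) => Perm.sign a = 1 ∧
    a 3 = 3 ∧ a 4 = 4)).card = 3 := by
  decide +kernel

theorem trans_spec : ∀ i y : Fin 5, y ≠ i → ∃ a : Perm (Fin 5), Perm.sign a = 1 ∧ a * a = 1 ∧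
    a i = i ∧ a y = pt i := by
  decide +kernel

theorem nontriv_spec : ∀ i : Fin 5, ∃ a : Perm (Fin 5), Perm.sign a = 1 ∧ a * a = 1 ∧
    a i = i ∧ a ≠ 1 := by
  decide +kernel

theorem chk1 : ∀ h : Perm (Fin 5), Perm.sign h = 1 → ∀ i j : Fin 5, h j = pt i → h (pt j) = i →
    (Finset.univ.filter (fun st : Fin 4 × Fin 4 =>
      cl (tab i st.1 (h (tab j st.2 3))) (tab i st.1 (h (tab j st.2 4))) = 0)).card ≤ 5 := by
  decide +kernel

theorem chk2 : ∀ h : Perm (Fin 5), Perm.sign h = 1 → ∀ i j : Fin 5, h j = pt i → h (pt j) = i →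
    ∀ κ : Fin 7, (Finset.univ.filter (fun st : Fin 4 × Fin 4 =>
      cl (tab i st.1 (h (tab j st.2 3))) (tab i st.1 (h (tab j st.2 4))) = 0 ∨
      cl (tab i st.1 (h (tab j st.2 3))) (tab i st.1 (h (tab j st.2 4))) = κ)).card ≤ 10 := by
  decide +kernel

end Pool.Agent.Helper92.SA.C53
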