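import Pool.Agent.Helper17.SA.St4
import Pool.Agent.Helper92.SA.M_C53T

/-!
# Module C53 of project SA: the counts for `A_5`, `p = 3`
-/

set_option autoImplicit false

namespace Pool.Agent.Helper92.SA.C53

open Equiv Pool.Agent.Helper17.SA
open scoped Pointwise

/-- Sylow subgroups are conjugate to a given subgroup of the right order. -/
theorem sylow_conj {G : Type} [Group G] [Finite G] (p a : ℕ) (hp : p.Prime) (K : Subgroup G)
    (hK : Nat.card K = p ^ a) (hG : ¬ p ^ (a + 1) ∣ Nat.card G) (V : Sylow p G) :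
    ∃ u : G, ∀ g, g ∈ V ↔ u⁻¹ * g * u ∈ K := by
  have : Fact p.Prime := ⟨hp⟩
  obtain ⟨Q, hQ⟩ := (IsPGroup.of_card hK).exists_le_sylow
  obtain ⟨k, hk⟩ := IsPGroup.iff_card.1 Q.2
  have hka : k ≤ a := by
    by_contra h
    apply hG
    have h1 : Nat.card (Q : Subgroup G) ∣ Nat.card G := Subgroup.card_subgroup_dvd_card _
    rw [hk] at h1
    exact (pow_dvd_pow p (by omega)).trans h1
  have hKQ : K = (Q : Subgroup G) := by
    apply Subgroup.eq_of_le_of_card_ge hQ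
    rw [hK, hk]
    exact Nat.pow_le_pow_right hp.pos hka
  obtain ⟨u, hu⟩ := MulAction.exists_smul_eq G Q V
  refine ⟨u, fun g => ?_⟩
  rw [← hu, hKQ]
  have : g ∈ u • Q ↔ g ∈ (MulAut.conj u) • (Q : Subgroup G) := Iff.rfl
  rw [this, Subgroup.mem_pointwise_smul_iff_inv_smul_mem]
  simp [MulAut.smul_def, mul_assoc]

/-- The group of the problem. -/
abbrev G5 : Type := alternatingGroup (Fin 5)

theorem card60 : Nat.card G5 = 60 := by
  rw [nat_card_alternatingGroup]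
  simp [Nat.factorial]

/-- The Klein group fixing `0`. -/
def K0 : Subgroup G5 where
  carrier := {g | (g : Perm (Fin 5)) 0 = 0 ∧ g * g = 1}
  mul_mem' := by
    rintro a b ⟨ha, ha'⟩ ⟨hb, hb'⟩
    refine ⟨?_, ?_⟩
    · show (a : Perm (Fin 5)) ((b : Perm (Fin 5)) 0) = 0
      rw [hb, ha]
    · apply Subtype.ext
      exact klein_mul a a.2 ha (congrArg Subtype.val ha') b b.2 hb (congrArg Subtype.val hb')
  one_mem' := ⟨rfl, one_mul 1⟩
  inv_mem' := by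
    rintro a ⟨ha, ha'⟩
    have : a⁻¹ = a := inv_eq_of_mul_eq_one_right ha'
    show (((a⁻¹ : G5) : Perm (Fin 5)) 0 = 0 ∧ a⁻¹ * a⁻¹ = 1)
    rw [this]
    exact ⟨ha, ha'⟩

/-- The even permutations of `0, 1, 2`. -/
def P0 : Subgroup G5 where
  carrier := {g | (g : Perm (Fin 5)) 3 = 3 ∧ (g : Perm (Fin 5)) 4 = 4}
  mul_mem' := by
    rintro a b ⟨ha, ha'⟩ ⟨hb, hb'⟩
    refine ⟨?_, ?_⟩
    · show (a : Perm (Fin 5)) ((b : Perm (Fin 5)) 3) = 3
      rw [hb, ha]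
    · show (a : Perm (Fin 5)) ((b : Perm (Fin 5)) 4) = 4
      rw [hb', ha']
  one_mem' := ⟨rfl, rfl⟩
  inv_mem' := by
    rintro a ⟨ha, ha'⟩
    refine ⟨?_, ?_⟩
    · show (a : Perm (Fin 5))⁻¹ 3 = 3
      rw [Perm.inv_eq_iff_eq, ha]
    · show (a : Perm (Fin 5))⁻¹ 4 = 4
      rw [Perm.inv_eq_iff_eq, ha']

theorem cardK0 : Nat.card K0 = 4 := by
  rw [← klein_card, ← Fintype.card_coe, ← Nat.card_eq_fintype_card]
  refine Nat.card_congr
    { toFun := fun g => ⟨((g : G5) : Perm (Fin 5)), ?_⟩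
      invFun := fun g => ⟨⟨g.1, ?_⟩, ?_⟩
      left_inv := fun g => rfl
      right_inv := fun g => rfl }
  · rw [Finset.mem_filter]
    exact ⟨Finset.mem_univ _, (g : G5).2, g.2.1, congrArg Subtype.val g.2.2⟩
  · exact (Finset.mem_filter.1 g.2).2.1
  · have := (Finset.mem_filter.1 g.2).2.2
    exact ⟨this.1, Subtype.ext this.2⟩

theorem cardP0 : Nat.card P0 = 3 := by
  rw [← cyc_card, ← Fintype.card_coe, ← Nat.card_eq_fintype_card]
  refine Nat.card_congr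
    { toFun := fun g => ⟨((g : G5) : Perm (Fin 5)), ?_⟩
      invFun := fun g => ⟨⟨g.1, ?_⟩, ?_⟩
      left_inv := fun g => rfl
      right_inv := fun g => rfl }
  · rw [Finset.mem_filter]
    exact ⟨Finset.mem_univ _, (g : G5).2, g.2.1, g.2.2⟩
  · exact (Finset.mem_filter.1 g.2).2.1
  · have := (Finset.mem_filter.1 g.2).2.2
    exact ⟨this.1, this.2⟩

theorem klein (V : Sylow 2 G5) : ∃ j : Fin 5, ∀ g : G5, g ∈ V ↔
    ((g : Perm (Fin 5)) j = j ∧ g * g = 1) := by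
  obtain ⟨u, hu⟩ := sylow_conj 2 2 Nat.prime_two K0 (by rw [cardK0]; norm_num)
    (by rw [card60]; norm_num) V
  refine ⟨(u : Perm (Fin 5)) 0, fun g => ?_⟩
  rw [hu]
  have h1 : (u⁻¹ * g * u ∈ K0) ↔ (((u⁻¹ * g * u : G5) : Perm (Fin 5)) 0 = 0 ∧
      (u⁻¹ * g * u) * (u⁻¹ * g * u) = 1) := Iff.rfl
  rw [h1]
  have h2 : (u⁻¹ * g * u) * (u⁻¹ * g * u) = u⁻¹ * (g * g) * u := by group
  have h3 : ((u⁻¹ * g * u : G5) : Perm (Fin 5)) 0 =
      (u : Perm (Fin 5))⁻¹ ((g : Perm (Fin 5)) ((u : Perm (Fin 5)) 0)) := rfl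
  rw [h2, h3, Perm.inv_eq_iff_eq]
  have h4 : u⁻¹ * (g * g) * u = 1 ↔ g * g = 1 := by
    constructor
    · intro h
      have h5 : g * g = u * (u⁻¹ * (g * g) * u) * u⁻¹ := by group
      rw [h5, h]
      group
    · intro h
      rw [h]
      group
  rw [h4]

/-- Counting with the tables. -/
theorem count_le (i j : Fin 5) (h : G5) (Q : Fin 7 → Prop) [DecidablePred Q] (M : ℕ)
    (hM : (Finset.univ.filter (fun st : Fin 4 × Fin 4 =>
      Q (cl (tab i st.1 ((h : Perm (Fin 5)) (tab j st.2 3)))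
        (tab i st.1 ((h : Perm (Fin 5)) (tab j st.2 4)))))).card ≤ M)
    (T : Type) (φ : T → G5) (hφ : Function.Injective φ)
    (hT : ∀ n : T, (∃ a b : G5, ((a : Perm (Fin 5)) i = i ∧ a * a = 1) ∧
      ((b : Perm (Fin 5)) j = j ∧ b * b = 1) ∧ φ n = a * h * b) ∧
      Q (cl ((φ n : Perm (Fin 5)) 3) ((φ n : Perm (Fin 5)) 4))) :
    Nat.card T ≤ M := by
  refine le_trans ?_ hM
  rw [← Fintype.card_coe, ← Nat.card_eq_fintype_card]
  choose hab hQ using hT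
  choose a b ha hb hab using hab
  have h1 : ∀ n : T, ∃ t : Fin 4, ∀ k, (a n : Perm (Fin 5)) k = tab i t k := fun n =>
    tab_spec (a n) (a n).2 (congrArg Subtype.val (ha n).2) i (ha n).1
  have h2 : ∀ n : T, ∃ t : Fin 4, ∀ k, (b n : Perm (Fin 5)) k = tab j t k := fun n =>
    tab_spec (b n) (b n).2 (congrArg Subtype.val (hb n).2) j (hb n).1
  choose s hs using h1
  choose t ht using h2
  have h3 : ∀ (n : T) (k : Fin 5), (φ n : Perm (Fin 5)) k =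
      tab i (s n) ((h : Perm (Fin 5)) (tab j (t n) k)) := by
    intro n k
    rw [hab n, ← ht n k, ← hs n]
    rfl
  refine Nat.card_le_card_of_injective (fun n => (⟨(s n, t n), ?_⟩ : {st // st ∈ _})) ?_
  · rw [Finset.mem_filter]
    refine ⟨Finset.mem_univ _, ?_⟩
    have := hQ n
    rw [h3, h3] at this
    exact this
  · intro n n' hn
    have h4 := congrArg Subtype.val hn
    simp only [Prod.mk.injEq] at h4
    apply hφ
    apply Subtype.ext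
    apply Perm.ext
    intro k
    rw [h3, h3, h4.1, h4.2]

theorem pC53 : StC53 := by
  intro V V' n0 hR P c x
  obtain ⟨j', hV⟩ := klein V
  obtain ⟨i', hV'⟩ := klein V'
  obtain ⟨u, hu⟩ := sylow_conj 3 1 Nat.prime_three P0 (by rw [cardP0]; norm_num)
    (by rw [card60]; norm_num) P
  -- conjugation and translation
  obtain ⟨φ, hφ⟩ : ∃ φ : G5 → G5, ∀ n, φ n = u⁻¹ * (c * n) * u := ⟨_, fun _ => rfl⟩
  have hinj : Function.Injective φ := by
    intro n n' h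
    rw [hφ, hφ] at h
    simpa using h
  obtain ⟨i, hi⟩ : ∃ i, i = ((u⁻¹ * c : G5) : Perm (Fin 5)) i' := ⟨_, rfl⟩
  obtain ⟨j, hj⟩ : ∃ j, j = ((u⁻¹ : G5) : Perm (Fin 5)) j' := ⟨_, rfl⟩
  have hn0 : (n0 : Perm (Fin 5)) j' ≠ i' := by
    intro h
    obtain ⟨y, hy1, hy2, hy3, hy4⟩ := nontriv_spec j'
    apply hy4
    have h1 := hR ⟨y, hy1⟩ ((hV _).2 ⟨hy3, Subtype.ext hy2⟩) ((hV' _).2 ⟨?_, ?_⟩)
    · exact congrArg Subtype.val h1
    · show (n0 : Perm (Fin 5)) (y ((n0 : Perm (Fin 5))⁻¹ i')) = i'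
      have h2 : (n0 : Perm (Fin 5))⁻¹ i' = j' := by rw [Perm.inv_eq_iff_eq, h]
      rw [h2, hy3, h]
    · have h2 : (⟨y, hy1⟩ : G5) * ⟨y, hy1⟩ = 1 := Subtype.ext hy2
      calc (n0 * ⟨y, hy1⟩ * n0⁻¹) * (n0 * ⟨y, hy1⟩ * n0⁻¹) =
          n0 * (⟨y, hy1⟩ * ⟨y, hy1⟩) * n0⁻¹ := by group
        _ = 1 := by rw [h2]; group
  -- the element `h1` and the normalized representative `h`
  obtain ⟨h1, hh1⟩ : ∃ h1 : G5, h1 = u⁻¹ * (c * n0) * u := ⟨_, rfl⟩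
  have h1j : (h1 : Perm (Fin 5)) j ≠ i := by
    intro h
    apply hn0
    rw [hh1, hi, hj] at h
    have h2 : ((u⁻¹ * (c * n0) * u : G5) : Perm (Fin 5)) (((u⁻¹ : G5) : Perm (Fin 5)) j') =
        ((u⁻¹ * c : G5) : Perm (Fin 5)) ((n0 : Perm (Fin 5)) j') := by
      show ((u⁻¹ * (c * n0) * u * u⁻¹ : G5) : Perm (Fin 5)) j' =
        ((u⁻¹ * c * n0 : G5) : Perm (Fin 5)) j'
      congr 2
      group
    rw [h2] at h
    exact (Equiv.injective _) h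
  obtain ⟨a1, a1s, a1q, a1i, a1y⟩ := trans_spec i ((h1 : Perm (Fin 5)) j) h1j
  obtain ⟨b1, b1s, b1q, b1j, b1y⟩ := trans_spec j ((h1 : Perm (Fin 5))⁻¹ i) (by
    intro h
    rw [Perm.inv_eq_iff_eq] at h
    exact h1j h.symm)
  obtain ⟨A1, hA1⟩ : ∃ A1 : G5, (A1 : Perm (Fin 5)) = a1 := ⟨⟨a1, a1s⟩, rfl⟩
  obtain ⟨B1, hB1⟩ : ∃ B1 : G5, (B1 : Perm (Fin 5)) = b1 := ⟨⟨b1, b1s⟩, rfl⟩
  obtain ⟨h, hh⟩ : ∃ h : G5, h = A1 * h1 * B1 := ⟨_, rfl⟩
  have hA2 : A1 * A1 = 1 := Subtype.ext (by rw [Subgroup.coe_mul, hA1]; exact a1q)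
  have hB2 : B1 * B1 = 1 := Subtype.ext (by rw [Subgroup.coe_mul, hB1]; exact b1q)
  have hhj : (h : Perm (Fin 5)) j = pt i := by
    rw [hh]
    show (A1 : Perm (Fin 5)) ((h1 : Perm (Fin 5)) ((B1 : Perm (Fin 5)) j)) = pt i
    rw [hA1, hB1, b1j, a1y]
  have hbb : b1 (pt j) = (h1 : Perm (Fin 5))⁻¹ i := by
    rw [← b1y, ← Perm.mul_apply, b1q, Perm.one_apply]
  have hhi : (h : Perm (Fin 5)) (pt j) = i := by
    rw [hh]
    show (A1 : Perm (Fin 5)) ((h1 : Perm (Fin 5)) ((B1 : Perm (Fin 5)) (pt j))) = i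
    rw [hA1, hB1, hbb, Perm.inv_def, Equiv.apply_symm_apply, a1i]
  -- images of the elements of the double coset
  have hD : ∀ n : G5, InD (V' : Subgroup G5) V n0 n → ∃ a b : G5,
      ((a : Perm (Fin 5)) i = i ∧ a * a = 1) ∧ ((b : Perm (Fin 5)) j = j ∧ b * b = 1) ∧
      φ n = a * h * b := by
    rintro n ⟨a, ha, b, hb, rfl⟩
    obtain ⟨ha1, ha2⟩ := (hV' a).1 ha
    obtain ⟨hb1, hb2⟩ := (hV b).1 hb
    -- closure of the two Klein groups under products: use the tables of the stabilizers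
    have hKi : ∀ (l : Fin 5) (y z : G5), ((y : Perm (Fin 5)) l = l ∧ y * y = 1) →
        ((z : Perm (Fin 5)) l = l ∧ z * z = 1) →
        ((((y * z : G5) : Perm (Fin 5)) l = l) ∧ (y * z) * (y * z) = 1) := by
      rintro l y z ⟨hy1, hy2⟩ ⟨hz1, hz2⟩
      refine ⟨?_, ?_⟩
      · show (y : Perm (Fin 5)) ((z : Perm (Fin 5)) l) = l
        rw [hz1, hy1]
      · obtain ⟨w, hw⟩ : ∃ w : G5, (w : Perm (Fin 5)) 0 = l := by
          have : ∀ l : Fin 5, ∃ w : Perm (Fin 5), Perm.sign w = 1 ∧ w 0 = l := by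
            decide +kernel
          obtain ⟨w, hw1, hw2⟩ := this l
          exact ⟨⟨w, hw1⟩, hw2⟩
        have hcj : ∀ g : G5, ((g : Perm (Fin 5)) l = l ∧ g * g = 1) → w⁻¹ * g * w ∈ K0 := by
          rintro g ⟨hg1, hg2⟩
          refine ⟨?_, ?_⟩
          · show (w : Perm (Fin 5))⁻¹ ((g : Perm (Fin 5)) ((w : Perm (Fin 5)) 0)) = 0
            rw [hw, hg1, Perm.inv_eq_iff_eq, hw]
          · calc (w⁻¹ * g * w) * (w⁻¹ * g * w) = w⁻¹ * (g * g) * w := by group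
              _ = 1 := by rw [hg2]; group
        have h5 := K0.mul_mem (hcj y ⟨hy1, hy2⟩) (hcj z ⟨hz1, hz2⟩)
        have h6 := h5.2
        calc (y * z) * (y * z) = w * ((w⁻¹ * y * w * (w⁻¹ * z * w)) *
              (w⁻¹ * y * w * (w⁻¹ * z * w))) * w⁻¹ := by group
          _ = 1 := by rw [h6]; group
    refine ⟨(u⁻¹ * c * a * (u⁻¹ * c)⁻¹) * A1, B1 * (u⁻¹ * b * u), ?_, ?_, ?_⟩
    · refine hKi i _ _ ⟨?_, ?_⟩ ⟨by rw [hA1]; exact a1i, hA2⟩
      · rw [hi]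
        show ((u⁻¹ * c : G5) : Perm (Fin 5)) ((a : Perm (Fin 5))
          (((u⁻¹ * c : G5) : Perm (Fin 5))⁻¹ (((u⁻¹ * c : G5) : Perm (Fin 5)) i'))) = _
        rw [Perm.inv_def, Equiv.symm_apply_apply, ha1]
      · calc (u⁻¹ * c * a * (u⁻¹ * c)⁻¹) * (u⁻¹ * c * a * (u⁻¹ * c)⁻¹) =
            u⁻¹ * c * (a * a) * (u⁻¹ * c)⁻¹ := by group
          _ = 1 := by rw [ha2]; group
    · refine hKi j _ _ ⟨by rw [hB1]; exact b1j, hB2⟩ ⟨?_, ?_⟩
      · rw [hj]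
        show (u : Perm (Fin 5))⁻¹ ((b : Perm (Fin 5)) ((u : Perm (Fin 5))
          ((u : Perm (Fin 5))⁻¹ j'))) = (u : Perm (Fin 5))⁻¹ j'
        rw [Perm.inv_def, Equiv.apply_symm_apply, hb1]
      · calc (u⁻¹ * b * u) * (u⁻¹ * b * u) = u⁻¹ * (b * b) * u := by group
          _ = 1 := by rw [hb2]; group
    · have hA3 : A1⁻¹ = A1 := inv_eq_of_mul_eq_one_right hA2
      have hB3 : B1⁻¹ = B1 := inv_eq_of_mul_eq_one_right hB2
      rw [hφ, hh, hh1]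
      calc u⁻¹ * (c * (a * n0 * b)) * u
          = u⁻¹ * c * a * (u⁻¹ * c)⁻¹ * (u⁻¹ * (c * n0) * u) * (u⁻¹ * b * u) := by group
        _ = u⁻¹ * c * a * (u⁻¹ * c)⁻¹ * (A1 * A1) * (u⁻¹ * (c * n0) * u) * (B1 * B1) *
            (u⁻¹ * b * u) := by rw [hA2, hB2, mul_one, mul_one]
        _ = _ := by group
  -- bad elements have class `0`
  have hBad : ∀ n : G5, Bad (P : Subgroup G5) (c * n) →
      cl ((φ n : Perm (Fin 5)) 3) ((φ n : Perm (Fin 5)) 4) = 0 := by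
    rintro n ⟨y, hy, hy1, hyn⟩
    have k1 := (hu y).1 hy
    have k2 := (hu _).1 hyn
    obtain ⟨q, hq⟩ : ∃ q : G5, q = u⁻¹ * y * u := ⟨_, rfl⟩
    rw [← hq] at k1
    have hq1 : (q : Perm (Fin 5)) ≠ 1 := by
      intro h0
      apply hy1
      have h2 : q = 1 := Subtype.ext h0
      have h3 : y = u * q * u⁻¹ := by rw [hq]; group
      rw [h3, h2]
      group
    have k3 : φ n * q * (φ n)⁻¹ ∈ P0 := by
      have : φ n * q * (φ n)⁻¹ = u⁻¹ * (c * n * y * (c * n)⁻¹) * u := by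
        rw [hφ, hq]
        group
      rw [this]
      exact k2
    obtain ⟨k4, k5⟩ := k3
    have key : ∀ l : Fin 5, ((φ n * q * (φ n)⁻¹ : G5) : Perm (Fin 5)) l = l →
        (φ n : Perm (Fin 5))⁻¹ l = 3 ∨ (φ n : Perm (Fin 5))⁻¹ l = 4 := by
      intro l hl
      have hl2 : (φ n : Perm (Fin 5)) ((q : Perm (Fin 5)) ((φ n : Perm (Fin 5))⁻¹ l)) = l := hl
      exact fix_spec q q.2 k1.1 k1.2 hq1 _ (Perm.eq_inv_iff_eq.2 hl2)
    have e3 := key 3 k4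
    have e4 := key 4 k5
    have key2 : ∀ g : Perm (Fin 5), (g⁻¹ 3 = 3 ∨ g⁻¹ 3 = 4) → (g⁻¹ 4 = 3 ∨ g⁻¹ 4 = 4) →
        cl (g 3) (g 4) = 0 := by
      intro g g1 g2
      have g3 : g⁻¹ 3 ≠ g⁻¹ 4 := by
        intro h0
        have := (Equiv.injective _) h0
        exact absurd this (by decide)
      rcases g1 with g1 | g1 <;> rcases g2 with g2 | g2
      · rw [g1, g2] at g3
        exact absurd rfl g3
      · rw [Perm.inv_eq_iff_eq] at g1 g2
        rw [← g1, ← g2]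
        decide
      · rw [Perm.inv_eq_iff_eq] at g1 g2
        rw [← g1, ← g2]
        decide
      · rw [g1, g2] at g3
        exact absurd rfl g3
    exact key2 _ e3 e4
  -- elements of the double coset of `P`
  have hDC : ∀ n : G5, (∃ a ∈ P, ∃ b ∈ P, c * n = a * x * b) →
      cl ((φ n : Perm (Fin 5)) 3) ((φ n : Perm (Fin 5)) 4) =
        cl (((u⁻¹ * x * u : G5) : Perm (Fin 5)) 3) (((u⁻¹ * x * u : G5) : Perm (Fin 5)) 4) := by
    rintro n ⟨a, ha, b, hb, hab⟩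
    have k1 := (hu a).1 ha
    have k2 := (hu b).1 hb
    have h3 : φ n = (u⁻¹ * a * u) * (u⁻¹ * x * u) * (u⁻¹ * b * u) := by
      rw [hφ, hab]
      group
    rw [h3]
    have h4 : (((u⁻¹ * a * u) * (u⁻¹ * x * u) * (u⁻¹ * b * u) : G5) : Perm (Fin 5)) 3 =
        ((u⁻¹ * a * u : G5) : Perm (Fin 5)) (((u⁻¹ * x * u : G5) : Perm (Fin 5)) 3) := by
      show ((u⁻¹ * a * u : G5) : Perm (Fin 5)) (((u⁻¹ * x * u : G5) : Perm (Fin 5))
        (((u⁻¹ * b * u : G5) : Perm (Fin 5)) 3)) = _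
      rw [k2.1]
    have h5 : (((u⁻¹ * a * u) * (u⁻¹ * x * u) * (u⁻¹ * b * u) : G5) : Perm (Fin 5)) 4 =
        ((u⁻¹ * a * u : G5) : Perm (Fin 5)) (((u⁻¹ * x * u : G5) : Perm (Fin 5)) 4) := by
      show ((u⁻¹ * a * u : G5) : Perm (Fin 5)) (((u⁻¹ * x * u : G5) : Perm (Fin 5))
        (((u⁻¹ * b * u : G5) : Perm (Fin 5)) 4)) = _
      rw [k2.2]
    rw [h4, h5]
    exact cl_inv _ (u⁻¹ * a * u : G5).2 k1.1 k1.2 _ _
  constructor
  · refine count_le i j h (fun κ => κ = 0) 5 (chk1 h h.2 i j hhj hhi) _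
      (fun n => φ n.1) (fun n n' hn => Subtype.ext (hinj hn)) ?_
    intro n
    exact ⟨hD n.1 n.2.1, hBad n.1 n.2.2⟩
  · refine count_le i j h (fun κ => κ = 0 ∨
      κ = cl (((u⁻¹ * x * u : G5) : Perm (Fin 5)) 3) (((u⁻¹ * x * u : G5) : Perm (Fin 5)) 4))
      10 (chk2 h h.2 i j hhj hhi _) _
      (fun n => φ n.1) (fun n n' hn => Subtype.ext (hinj hn)) ?_
    intro n
    refine ⟨hD n.1 n.2.1, ?_⟩
    rcases n.2.2 with h6 | h6
    · exact Or.inl (hBad n.1 h6)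
    · exact Or.inr (hDC n.1 h6)

end Pool.Agent.Helper92.SA.C53
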